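import Pool.Agent.W885.TD.Main

set_option autoImplicit false

/-!
Turing determinacy implies that every upward closed set of reals has the Baire property: the
explicit reduction. To an upward closed set `V` of subsets of the natural numbers we attach
countably many Turing invariant sets of reals, preimages of `V` under fixed Borel maps up to a
number quantifier and Turing saturation, and if these Turing invariant sets are determined, then
`V` has the Baire property. No choice principle is used to find the Turing invariant sets.
-/

namespace Pool.Agent.Results.MP_917879_lc.MonotoneBaire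

open Pool.Agent.H685R3 Filter

/-- `x` and `y` have the same Turing degree (Mathlib's Turing reducibility, for characteristic
functions). -/
def SameDegree (x y : ℕ → Bool) : Prop :=
  TuringReducible (charFn x) (charFn y) ∧ TuringReducible (charFn y) (charFn x)

/-- The set of all `x` such that for some `x'` of the same Turing degree the set `V` contains
infinitely many members of the sequence `Ψ x'`. -/
def Saturation (V : Set (ℕ → Bool)) (Ψ : (ℕ → Bool) → ℕ → ℕ → Bool) : Set (ℕ → Bool) :=
  {x | ∃ x', SameDegree x' x ∧ ∃ᶠ n in atTop, Ψ x' n ∈ V}

/-- There are Borel maps `Φ σ` (one for every finite binary sequence `σ`) from the Cantor space to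
sequences of points of the Cantor space such that for every upward closed set `V` the Turing
saturations of the sets `{x | Φ σ x n ∈ V for infinitely many n}` are Turing invariant, and if all
of them are determined, then `V` has the Baire property. -/
theorem result :
    ∃ Φ : List Bool → (ℕ → Bool) → ℕ → ℕ → Bool, (∀ σ, Measurable (Φ σ)) ∧
      ∀ V : Set (ℕ → Bool), (∀ a b, a ∈ V → (∀ n, a n = true → b n = true) → b ∈ V) →
        (∀ σ, TuringInvariant (Saturation V (Φ σ))) ∧
        ((∀ σ, Determined (Saturation V (Φ σ))) → BaireMeasurableSet V) := by
  refine ⟨Pool.Agent.W885.TD.cc, Pool.Agent.W885.TD.measurable_cc, fun V hV => ?_⟩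
  have key : ∀ σ, Saturation V (Pool.Agent.W885.TD.cc σ) =
      Pool.Agent.W885.TD.sat V (Pool.Agent.W885.TD.cc σ) := by
    intro σ
    ext x
    exact ⟨fun ⟨x', h, h'⟩ => ⟨x', h.1, h.2, h'⟩, fun ⟨x', h1, h2, h'⟩ => ⟨x', ⟨h1, h2⟩, h'⟩⟩
  refine ⟨fun σ => ?_, fun h => ?_⟩
  · rw [key]
    exact Pool.Agent.W885.TD.sat_invariant _ _
  · refine Pool.Agent.W885.TD.baire_of_determined hV fun σ => ?_
    rw [← key]
    exact h σ

end Pool.Agent.Results.MP_917879_lc.MonotoneBaire
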