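import Pool.Agent.W885.TD.Cover

set_option autoImplicit false

/-!
Turing determinacy implies a partition property for all countable covers of the Baire space: some
member of the cover meets, up to finitely many places, every product of finite sets which grows
along a given sequence and is predicted by it, with a bound on the sizes of the finite sets that
depends on nothing. Stated as an explicit reduction to the determinacy of Turing invariant sets.
-/

namespace Pool.Agent.Results.MP_917879_lc.SlalomCover

open Pool.Agent.H685R3 Filter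

/-- `x` and `y` have the same Turing degree (Mathlib's Turing reducibility, for characteristic
functions). -/
def SameDegree (x y : ℕ → Bool) : Prop :=
  TuringReducible (charFn x) (charFn y) ∧ TuringReducible (charFn y) (charFn x)

/-- The Turing saturation of the preimage of `V` under `Γ`. -/
def Saturation (V : Set (ℕ → ℕ)) (Γ : (ℕ → Bool) → ℕ → ℕ) : Set (ℕ → Bool) :=
  {x | ∃ x', SameDegree x' x ∧ Γ x' ∈ V}

/-- There are `w : ℕ → ℕ` and a Borel map `Γ` such that for every countable cover `V 0, V 1, ...`
of the Baire space the Turing saturations of the sets `Γ ⁻¹ (V n)` are Turing invariant, and if all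
of them are determined, then for some `n` there are finite sets `H s` (`s` a finite sequence) of
size at most `w s.length` such that every `τ` admits `v ∈ V n` with `τ k ≤ v k` and
`v k ∈ H (τ 0, ..., τ k)` for almost all `k`. -/
theorem result :
    ∃ (w : ℕ → ℕ) (Γ : (ℕ → Bool) → ℕ → ℕ), Measurable Γ ∧
      ∀ V : ℕ → Set (ℕ → ℕ), (∀ f, ∃ n, f ∈ V n) →
        (∀ n, TuringInvariant (Saturation (V n) Γ)) ∧
        ((∀ n, Determined (Saturation (V n) Γ)) →
          ∃ (n : ℕ) (H : List ℕ → Finset ℕ), (∀ s, (H s).card ≤ w s.length) ∧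
            ∀ τ : ℕ → ℕ, ∃ v ∈ V n, ∀ᶠ k in atTop, τ k ≤ v k ∧
              v k ∈ H ((List.range (k + 1)).map τ)) := by
  refine ⟨fun n => Pool.Agent.W885.TD.ww (n - 1), Pool.Agent.W885.TD.G,
    measurable_pi_lambda _ Pool.Agent.W885.TD.measurable_G, fun V hV => ?_⟩
  have key : ∀ n, Saturation (V n) Pool.Agent.W885.TD.G = Pool.Agent.W885.TD.satG (V n) := by
    intro n
    ext x
    exact ⟨fun ⟨x', h, h'⟩ => ⟨x', h.1, h.2, h'⟩, fun ⟨x', h1, h2, h'⟩ => ⟨x', ⟨h1, h2⟩, h'⟩⟩
  refine ⟨fun n => ?_, fun h => ?_⟩
  · rw [key]
    exact Pool.Agent.W885.TD.satG_invariant _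
  · refine Pool.Agent.W885.TD.cover V hV fun n => ?_
    rw [← key]
    exact h n

end Pool.Agent.Results.MP_917879_lc.SlalomCover
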